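import Pool.Agent.Helper78.AO.Goals

/-!
# Project AO, packet APG: the approximation theorem for lists of any size
-/

namespace Pool.Agent.Helper50.AO

open Pool.Agent.Helper78.DT Pool.Agent.Helper78.AO Pool.Agent.Helper39.DT
open scoped Classical

theorem paraS : ParaStmt := by
  have hTll : TllStmt := Pool.Agent.Helper51.DT.tll
  have hPa4 : Pa4Stmt := Pool.Agent.Helper90.DT.pa4 hTll npr
  have hPa6 : Pa6Stmt := Pool.Agent.Helper46.DT.pa6 hTll npr hPa4
  exact para (Pool.Agent.Helper51.DT.pa1 npr) (Pool.Agent.Helper16.DT.pa2 hTll)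
    (Pool.Agent.Helper5.DT.pa3 hTll npr) hPa4 (Pool.Agent.Helper31.DT.pa5 hTll hPa4) hPa6

theorem parbS : ParbStmt :=
  Pool.Agent.Helper2.DT.parb npr Pool.Agent.Helper51.DT.tll cpwS

lemma filter_bal_zero {n : ℕ} (t : ℕ) (h : ℕ → ℕ) (f : DL (Fin n)) :
    f.filter (bal 0 t h) = f := by
  rw [List.filter_eq_self]
  intro e _
  unfold bal
  simp

theorem apg (hTog : TogStmt) : ApgStmt := by
  intro c1 e
  obtain ⟨a, β, L1, h1⟩ := paraS (e + c1)
  obtain ⟨C, L2, h2⟩ := parbS (e + c1) a β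
  refine ⟨a, β, C, max (max L1 L2) 1, ?_⟩
  intro n N R hnN hLi hL
  set c := e + c1 with hc
  set L := lg N with hLdef
  obtain ⟨k, s', η, κ, δ, hP, hR, hK0, hKP, hq0, hqP, hkd, hδ, hkq, htδ, hη, hη1, hκ, hηt, herr⟩ :=
    h1 L (le_trans (le_trans (le_max_left _ _) (le_max_left _ _)) hL)
  obtain ⟨n1, n2⟩ := two_pow_lg N
  rw [← hLdef] at n1 n2
  have hL1 : 1 ≤ L := le_trans (le_max_right _ _) hL
  have hcap : 2 ^ (C * L) ≤ (4 * N + 4) ^ C := by
    rw [mul_comm, pow_mul]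
    exact Nat.pow_le_pow_left n2 C
  have hZ := h2 L (le_trans (le_trans (le_max_right _ _) (le_max_left _ _)) hL) _ hcap
  have hzn : zng c a β C N = ZZ c a β L := hZ
  set Z := ZZ c a β L with hZdef
  have hZpos : 0 < Z := by
    rw [hZdef]
    unfold ZZ
    exact Nat.mul_pos (Nat.mul_pos (pow_pos hP.pos _) (pow_pos hR.pos _))
      (pow_pos (Nat.mul_pos hq0 hP.pos) _)
  set F : (ℕ → ℕ) → (ℕ → ℕ) → (ℕ → ℕ) → Bool := fun A' θ s'' =>
    R (KK c a β L) (tt a L) (pt (PP c L) (KK c a β L) (tt a L) L A')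
      (cut n (cn (RR c L) (PP c L) (KK c a β L) (tt a L) L (dd a L) A' θ s'')) with hF
  have hdig := Pool.Agent.Helper34.DT.dig (PP c L) (RR c L) (qn c L * PP c L) (tt a L + 2) (dd a L)
    (KK c a β L) F (by
    intro A1 A2 θ1 θ2 s1 s2 e1 e2 e3
    simp only [hF]
    rw [pt_congr e1, cn_congr hK0 e1 e2 e3])
  set ρ : ℝ := pr fun z : (Fin (tt a L + 2) → Fin (PP c L)) × (Fin (dd a L) → Fin (RR c L)) ×
    (Fin (KK c a β L) → Fin (qn c L * PP c L)) => F (ext z.1) (ext z.2.1) (ext z.2.2) = true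
    with hρ
  have han : (ang R n c a β C N : ℝ) = Z * ρ := by
    unfold ang
    rw [hzn]
    exact hdig
  obtain ⟨f, hWf, hf⟩ := hLi
  have hWf' : Wid (WW c L) f := by
    intro x hx
    refine le_trans (hWf x hx) ?_
    unfold WW
    exact Nat.mul_le_mul_right _ (by omega)
  have htot := hTog n (WW c L) (KK c a β L) (tt a L) L (PP c L) (RR c L) (dd a L) (qn c L) k s'
    η κ δ R f hWf' hf hP hR hK0 hKP hq0 hqP (by omega) hkd hδ hkq htδ hη hη1 hκ hηt
  have hev : (fun b : Fin n → Bool => ev f b = true) =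
      fun b : Fin n → Bool => R 0 0 (fun _ => 0) (cf b) = true := by
    funext b
    have := hf b (fun _ => 0) 0 0
    rw [filter_bal_zero] at this
    rw [this]
  rw [hev] at htot
  have hle : (0 : ℝ) ≤ 2 ^ (2 * L) / 2 ^ WW c L := by positivity
  have htot' : |ρ - pr (fun b : Fin n → Bool => R 0 0 (fun _ => 0) (cf b) = true)| <
      1 / (2 * (L : ℝ) ^ c) := by
    refine lt_of_le_of_lt htot (lt_of_le_of_lt ?_ herr)
    linarith
  have hL1r : (1 : ℝ) ≤ L := by exact_mod_cast hL1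
  have hlc : (0 : ℝ) < (L : ℝ) ^ e := pow_pos (by linarith) e
  have hLc : (L : ℝ) ^ e ≤ (L : ℝ) ^ c := pow_le_pow_right₀ hL1r (by omega)
  have hbd : 1 / (2 * (L : ℝ) ^ c) ≤ 1 / (2 * (L : ℝ) ^ e) :=
    one_div_le_one_div_of_le (by linarith) (by linarith)
  -- rounding
  have hapx : Pool.Agent.Helper78.AO.apg R n c a β C e N =
      (2 * L ^ e * ang R n c a β C N + Z) / (2 * Z) := by
    unfold Pool.Agent.Helper78.AO.apg
    rw [hzn]
  set m := Pool.Agent.Helper78.AO.apg R n c a β C e N with hm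
  have hZr : (0 : ℝ) < Z := by exact_mod_cast hZpos
  have r1 : (m : ℝ) * (2 * Z) ≤ 2 * (L : ℝ) ^ e * (Z * ρ) + Z := by
    rw [← han]
    have : m * (2 * Z) ≤ 2 * L ^ e * ang R n c a β C N + Z := by
      rw [hapx]
      exact Nat.div_mul_le_self _ _
    exact_mod_cast this
  have r2 : 2 * (L : ℝ) ^ e * (Z * ρ) + Z < ((m : ℝ) + 1) * (2 * Z) := by
    rw [← han]
    have : 2 * L ^ e * ang R n c a β C N + Z < (m + 1) * (2 * Z) := by
      rw [hapx, add_mul, one_mul]
      exact Nat.lt_div_mul_add (Nat.mul_pos two_pos hZpos)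
    exact_mod_cast this
  have r3 : |(m : ℝ) - (L : ℝ) ^ e * ρ| ≤ 1 / 2 := by
    apply rounding hZr
    · linarith
    · linarith
  exact final_bound hlc r3 htot' hbd

end Pool.Agent.Helper50.AO
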